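import Mathlib
import Pool.Agent.P.MP_5aae23_gt.GTop
import Pool.Agent.P.MP_5aae23_gt.GInst

/-! Every real Banach space `E` has an F-sigma linear subspace `X` such that the asymptotic
finite dimensional structure of `E` embeds uniformly into every real normed space with a convex
subset homeomorphic to `X`. -/

namespace Pool.Agent.Results.MP_5aae23_gt.FSigmaEvery

universe u v

theorem result (E : Type u) [NormedAddCommGroup E] [NormedSpace ℝ E] [CompleteSpace E] :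
    ∃ X : Submodule ℝ E, (∃ Y : ℕ → Set E, (∀ k, IsClosed (Y k)) ∧ ⋃ k, Y k = X) ∧
      ∀ (F : Type v) [NormedAddCommGroup F] [NormedSpace ℝ F] (C : Set F), Convex ℝ C →
        Nonempty (X ≃ₜ C) → ∃ K : ℝ, ∀ m : ℕ, ∃ S : Finset (E →L[ℝ] ℝ),
          ∀ G : Submodule ℝ E, FiniteDimensional ℝ G → Module.finrank ℝ G ≤ m →
            (∀ φ ∈ S, ∀ x ∈ G, φ x = 0) →
            ∃ T : G →ₗ[ℝ] F, ∀ x, ‖x‖ ≤ ‖T x‖ ∧ ‖T x‖ ≤ K * ‖x‖ :=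
  Pool.Agent.P.MP_5aae23_gt.Nsg.main_g E

/-- Spaces that are not asymptotically Hilbertian, for convex subsets of inner product spaces. -/
theorem inner_case (E : Type u) [NormedAddCommGroup E] [NormedSpace ℝ E] [CompleteSpace E]
    (hE : ¬∃ K : ℝ, ∀ m : ℕ, ∃ S : Finset (E →L[ℝ] ℝ), ∀ G : Submodule ℝ E,
      FiniteDimensional ℝ G → Module.finrank ℝ G ≤ m → (∀ φ ∈ S, ∀ x ∈ G, φ x = 0) →
        ∃ T : G →ₗ[ℝ] EuclideanSpace ℝ (Fin (Module.finrank ℝ G)),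
          ∀ x, ‖x‖ ≤ ‖T x‖ ∧ ‖T x‖ ≤ K * ‖x‖) :
    ∃ X : Submodule ℝ E, (∃ Y : ℕ → Set E, (∀ k, IsClosed (Y k)) ∧ ⋃ k, Y k = X) ∧
      ∀ (F : Type v) [NormedAddCommGroup F] [InnerProductSpace ℝ F] (C : Set F), Convex ℝ C →
        IsEmpty (X ≃ₜ C) := by
  obtain ⟨X, h1, h2⟩ := result.{u, v} E
  refine ⟨X, h1, fun F _ _ C hC => ⟨fun h => hE ?_⟩⟩
  obtain ⟨K, hK⟩ := h2 F C hC ⟨h⟩
  refine ⟨K, fun m => (hK m).imp fun S hS G hG hm hk => ?_⟩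
  obtain ⟨T, hT⟩ := hS G hG hm hk
  have hi : Function.Injective T := (injective_iff_map_eq_zero T).2 fun x hx =>
    norm_le_zero_iff.1 (by simpa [hx] using (hT x).1)
  let e := ((stdOrthonormalBasis ℝ (LinearMap.range T)).reindex
    (finCongr (LinearMap.finrank_range_of_inj hi))).repr
  refine ⟨e.toLinearEquiv.toLinearMap ∘ₗ T.rangeRestrict, fun x => ?_⟩
  have e1 : ‖(e.toLinearEquiv.toLinearMap ∘ₗ T.rangeRestrict) x‖ = ‖T x‖ :=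
    e.norm_map (T.rangeRestrict x)
  rw [e1]
  exact hT x

/-- The case `E = c₀`: `c₀` is finitely representable in `F`. -/
theorem c0_case : ∃ X : Submodule ℝ (ZeroAtInftyContinuousMap ℕ ℝ),
    (∃ Y : ℕ → Set (ZeroAtInftyContinuousMap ℕ ℝ), (∀ k, IsClosed (Y k)) ∧ ⋃ k, Y k = X) ∧
    ∀ (F : Type v) [NormedAddCommGroup F] [NormedSpace ℝ F] (C : Set F), Convex ℝ C →
      Nonempty (X ≃ₜ C) → ∀ ε : ℝ, 0 < ε → ∀ N : ℕ, ∃ e : Fin N → F, ∀ a : Fin N → ℝ,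
        ‖a‖ ≤ ‖∑ j, a j • e j‖ ∧ ‖∑ j, a j • e j‖ ≤ (1 + ε) * ‖a‖ := by
  obtain ⟨X, h1, h2⟩ := result.{0, v} (ZeroAtInftyContinuousMap ℕ ℝ)
  exact ⟨X, h1, fun F _ _ C hC h => Pool.Agent.P.MP_5aae23_gt.Nsg.in_c0 (h2 F C hC h)⟩

/-- The case `E = c₀` for convex subsets of inner product spaces. -/
theorem c0_inner_case : ∃ X : Submodule ℝ (ZeroAtInftyContinuousMap ℕ ℝ),
    (∃ Y : ℕ → Set (ZeroAtInftyContinuousMap ℕ ℝ), (∀ k, IsClosed (Y k)) ∧ ⋃ k, Y k = X) ∧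
    ∀ (F : Type v) [NormedAddCommGroup F] [InnerProductSpace ℝ F] (C : Set F), Convex ℝ C →
      IsEmpty (X ≃ₜ C) := by
  obtain ⟨X, h1, h2⟩ := c0_case.{v}
  refine ⟨X, h1, fun F _ _ C hC => ⟨fun h => ?_⟩⟩
  obtain ⟨e, he⟩ := h2 F C hC ⟨h⟩ (1 / 4) (by norm_num) 2
  exact Pool.Agent.P.MP_5aae23_gt.Nsh.not_inner e he

/-- The case `E = ℓ_p`, `1 ≤ p < ∞`, `p ≠ 2`, for convex subsets of inner product spaces. -/
theorem lp_inner_case (p : ENNReal) [Fact (1 ≤ p)] (hp : p ≠ ⊤) (h2 : p ≠ 2) :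
    ∃ X : Submodule ℝ (lp (fun _ : ℕ => ℝ) p),
      (∃ Y : ℕ → Set (lp (fun _ : ℕ => ℝ) p), (∀ k, IsClosed (Y k)) ∧ ⋃ k, Y k = X) ∧
      ∀ (F : Type v) [NormedAddCommGroup F] [InnerProductSpace ℝ F] (C : Set F), Convex ℝ C →
        IsEmpty (X ≃ₜ C) := by
  obtain ⟨X, h1, h3⟩ := result.{0, v} (lp (fun _ : ℕ => ℝ) p)
  exact ⟨X, h1, fun F _ _ C hC => ⟨fun h =>
    Pool.Agent.P.MP_5aae23_gt.Nsg.in_lp p hp h2 (h3 F C hC ⟨h⟩)⟩⟩

/-- The negative answer, with the parallelogram law in place of an inner product. -/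
theorem parallelogram_case : ∃ (E : Type) (_ : NormedAddCommGroup E) (_ : NormedSpace ℝ E)
    (_ : CompleteSpace E) (X : Submodule ℝ E),
    (∃ Y : ℕ → Set E, (∀ k, IsClosed (Y k)) ∧ ⋃ k, Y k = X) ∧
    ∀ (F : Type v) [NormedAddCommGroup F] [NormedSpace ℝ F] (C : Set F), Convex ℝ C →
      (∀ x y : F, ‖x + y‖ * ‖x + y‖ + ‖x - y‖ * ‖x - y‖ = 2 * (‖x‖ * ‖x‖ + ‖y‖ * ‖y‖)) →
      ¬Nonempty (X ≃ₜ C) := by
  obtain ⟨X, h1, h2⟩ := c0_inner_case.{v}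
  refine ⟨_, inferInstance, inferInstance, inferInstance, X, h1, fun F _ _ C hC hp ⟨h⟩ => ?_⟩
  let _ := InnerProductSpace.ofNorm ℝ hp
  exact (h2 F C hC).false h

end Pool.Agent.Results.MP_5aae23_gt.FSigmaEvery
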