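import Pool.Agent.P.MP_5aae23_gt.Blocks

set_option autoImplicit false

open Filter

universe u

namespace Pool.Agent.Results.MP_5aae23_gt.HilbertBlocks

/-- A real normed space with a uniformly bounded increasing sequence of commuting projections whose
ranges are isomorphic to inner product spaces, and which is a countable union of sets on each of
which the projections tend uniformly to the identity, is homeomorphic to an inner product space. -/
theorem result (X : Type u) [NormedAddCommGroup X] [NormedSpace ℝ X] (P : ℕ → X →L[ℝ] X)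
    (hP : ∀ j k x, P j (P k x) = P (min j k) x) (hC : ∃ C : ℝ, ∀ k, ‖P k‖ ≤ C)
    (hH : ∀ k, ∃ (F : Type u) (_ : NormedAddCommGroup F) (_ : InnerProductSpace ℝ F),
      Nonempty (LinearMap.range (P k : X →ₗ[ℝ] X) ≃L[ℝ] F))
    (A : ℕ → Set X) (hA : ⋃ n, A n = Set.univ)
    (hU : ∀ n, TendstoUniformlyOn (fun k x => P k x) id atTop (A n)) :
    ∃ (G : Type u) (_ : NormedAddCommGroup G) (_ : InnerProductSpace ℝ G),
      Nonempty (X ≃ₜ G) := by
  obtain ⟨C, hC⟩ := hC
  have hC0 : 0 ≤ C := (norm_nonneg _).trans (hC 0)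
  obtain ⟨φ, h1, h2⟩ := HB.exists_sub P A hA hU (fun k => (1 / 2) ^ (k + 1) / 8 / (1 + C))
    fun k => by positivity
  choose F _ _ e using hH
  exact HB.of_rate (fun k => P (φ k)) (fun j k x => by rw [hP, h1.monotone.map_min]) C
    (fun k => hC _) (fun k => F (φ k)) (fun k => (e (φ k)).some) h2

end Pool.Agent.Results.MP_5aae23_gt.HilbertBlocks
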