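import Mathlib
import Pool.Agent.P.MP_5aae23_gt.RigH

universe u v

/-- Every infinite dimensional real Banach space of cardinality at most continuum has a dense
hyperplane `X` such that every convex subset of a locally convex space that is homeomorphic to `X`
is carried onto a subset of `X` with an interior point by a translation and a linear homeomorphism
of its direction space onto `X`. -/
theorem Pool.Agent.Results.MP_5aae23_gt.RigidConvex.result
    (E : Type u) [NormedAddCommGroup E] [NormedSpace ℝ E] [CompleteSpace E]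
    (hE : ¬FiniteDimensional ℝ E) (hc : Cardinal.mk E ≤ Cardinal.continuum) :
    ∃ φ : E →ₗ[ℝ] ℝ, φ ≠ 0 ∧ Dense (LinearMap.ker φ : Set E) ∧
      ∀ (Y : Type v) [AddCommGroup Y] [Module ℝ Y] [TopologicalSpace Y] [IsTopologicalAddGroup Y]
        [ContinuousSMul ℝ Y] [LocallyConvexSpace ℝ Y] (C : Set Y), Convex ℝ C →
        Nonempty (C ≃ₜ LinearMap.ker φ) →
        ∃ p ∈ C, ∃ e : vectorSpan ℝ C ≃L[ℝ] LinearMap.ker φ,
          (interior (e '' {y : vectorSpan ℝ C | p + (y : Y) ∈ C})).Nonempty :=
  Pool.Agent.P.MP_5aae23_gt.Rigid.rigid_conv hE hc
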